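import Mathlib

/-!
# For even `n ≥ 2`, all irreducible factors of the Fibonacci polynomial `F_n` are monogenic if and
only if `n` is a power of two

The roots of `F_n` are the numbers `η - η⁻¹`, where `η ^ (2 n) = (-1) ^ n` and `η ≠ ± i`.

* If `η` is a root of unity of order divisible by `4`, `η ≠ ± i` and `θ = η - η⁻¹`, then
  `ℤ[η] = ℤ[θ] ⊕ ℤ[θ] η`, and `ℚ(θ)` is the fixed field of the automorphism `η ↦ -η⁻¹` of
  `ℚ(η)`. Hence `ℤ[θ]` is the ring of integers of `ℚ(θ)`.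
* If `ζ` is a root of unity of odd prime order `p ∣ n` and `θ = ζ - ζ⁻¹`, then `ζ ∈ ℚ(θ)`, but
  `ζ ∉ ℤ[θ]`, because otherwise `θ = ζ - ζ⁻¹` would be divisible by `2`.
-/

set_option autoImplicit false

open Polynomial

namespace Pool.Agent.Results.MP_b164a8_nt.EvenFibonacci

/-- The Fibonacci polynomials: `F_0 = 0`, `F_1 = 1`, `F_n = x F_{n-1} + F_{n-2}`. -/
noncomputable def fibPoly : ℕ → ℤ[X]
  | 0 => 0
  | 1 => 1
  | n + 2 => X * fibPoly (n + 1) + fibPoly n

/-- A polynomial `f` with integer coefficients (monic and irreducible over `ℚ` in the application)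
is monogenic when for every complex root `θ` of `f` every element of the field `ℚ(θ)` which is
integral over `ℤ` belongs to `ℤ[θ]`. -/
def IsMonogenic (f : ℤ[X]) : Prop :=
  ∀ θ : ℂ, aeval θ f = 0 →
    ∀ z : ℂ, z ∈ IntermediateField.adjoin ℚ {θ} → IsIntegral ℤ z → z ∈ Algebra.adjoin ℤ {θ}

/-- The Binet formula. -/
theorem binet (η : ℂ) (hη : η ≠ 0) (n : ℕ) :
    aeval (η - η⁻¹) (fibPoly n) * (η + η⁻¹) = η ^ n - (-η⁻¹) ^ n := by
  induction n using Nat.strong_induction_on with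
  | _ n ih =>
    match n with
    | 0 => simp [fibPoly]
    | 1 => simp [fibPoly]
    | n + 2 =>
      have h1 := ih (n + 1) (by omega)
      have h0 := ih n (by omega)
      simp only [fibPoly, map_add, map_mul, aeval_X]
      have h2 : ((η - η⁻¹) * aeval (η - η⁻¹) (fibPoly (n + 1)) + aeval (η - η⁻¹) (fibPoly n)) *
          (η + η⁻¹) = (η - η⁻¹) * (aeval (η - η⁻¹) (fibPoly (n + 1)) * (η + η⁻¹)) +
            aeval (η - η⁻¹) (fibPoly n) * (η + η⁻¹) := by ring
      rw [h2, h1, h0]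
      have e1 : η ^ 2 = (η - η⁻¹) * η + 1 := by field_simp; ring
      have e2 : (-η⁻¹) ^ 2 = (η - η⁻¹) * (-η⁻¹) + 1 := by field_simp; ring
      have e3 : η ^ (n + 2) = η ^ n * η ^ 2 := by ring
      have e4 : (-η⁻¹) ^ (n + 2) = (-η⁻¹) ^ n * (-η⁻¹) ^ 2 := by ring
      rw [e3, e4, e1, e2]
      ring

/-- `F_n(2 i) ≠ 0` and `F_n(-2 i) ≠ 0`. -/
theorem at_two_i (i : ℂ) (hi : i ^ 2 = -1) (n : ℕ) :
    aeval (2 * i) (fibPoly (n + 1)) = (n + 1) * i ^ n ∧
      aeval (2 * i) (fibPoly n) * i = n * i ^ n := by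
  induction n with
  | zero => simp [fibPoly]
  | succ n ih =>
    obtain ⟨h1, h2⟩ := ih
    have hi0 : i ≠ 0 := by
      rintro rfl
      norm_num at hi
    constructor
    · simp only [fibPoly, map_add, map_mul, aeval_X]
      have h3 : (2 * i * aeval (2 * i) (fibPoly (n + 1)) + aeval (2 * i) (fibPoly n)) * i =
          (((n : ℂ) + 1) + 1) * i ^ (n + 1) * i := by
        rw [add_mul, h2, h1]
        have e1 : i ^ n = - (i ^ (n + 1) * i) := by
          rw [show i ^ (n + 1) * i = i ^ n * i ^ 2 by ring, hi]; ring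
        rw [e1]
        have e2 : i ^ (n + 1) * i = i ^ n * i ^ 2 := by ring
        rw [e2, hi]
        have e3 : 2 * i * ((↑n + 1) * -(i ^ n * -1)) * i = 2 * (n + 1) * i ^ n * i ^ 2 := by ring
        rw [e3, hi, show (((n : ℂ) + 1) + 1) * i ^ (n + 1) * i = (n + 2) * i ^ n * i ^ 2 by ring, hi]
        ring
      push_cast
      exact mul_right_cancel₀ hi0 h3
    · rw [h1]; push_cast; ring

/-- If `η + η⁻¹` belongs to a subalgebra, then so does `η ^ k + η⁻¹ ^ k`. -/
theorem pow_add_inv_pow_mem (A : Subalgebra ℤ ℂ) (η : ℂ) (hη : η ≠ 0) (h : η + η⁻¹ ∈ A) (k : ℕ) :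
    η ^ k + η⁻¹ ^ k ∈ A := by
  induction k using Nat.strong_induction_on with
  | _ k ih =>
    match k with
    | 0 =>
      have : (η ^ 0 + η⁻¹ ^ 0 : ℂ) = 1 + 1 := by simp
      rw [this]
      exact A.add_mem A.one_mem A.one_mem
    | 1 => simpa using h
    | k + 2 =>
      have e : η ^ (k + 2) + η⁻¹ ^ (k + 2) =
          (η + η⁻¹) * (η ^ (k + 1) + η⁻¹ ^ (k + 1)) - (η ^ k + η⁻¹ ^ k) := by
        have h1 : η * η⁻¹ = 1 := mul_inv_cancel₀ hη
        have h2 : (η + η⁻¹) * (η ^ (k + 1) + η⁻¹ ^ (k + 1)) =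
          η ^ (k + 2) + η⁻¹ ^ (k + 2) + (η * η⁻¹) * (η ^ k + η⁻¹ ^ k) := by ring
        rw [h2, h1]
        ring
      rw [e]
      exact A.sub_mem (A.mul_mem h (ih (k + 1) (by omega))) (ih k (by omega))

/-- Elements of `ℤ[θ]` are congruent to their complex conjugates modulo `2` if `θ` is purely
imaginary. -/
theorem sub_conj (θ : ℂ) (hθ : (starRingEnd ℂ) θ = -θ) (w : ℂ) (hw : w ∈ Algebra.adjoin ℤ {θ}) :
    (starRingEnd ℂ) w ∈ Algebra.adjoin ℤ {θ} ∧
      ∃ v ∈ Algebra.adjoin ℤ {θ}, w - (starRingEnd ℂ) w = 2 * v := by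
  induction hw using Algebra.adjoin_induction with
  | mem x hx =>
    rw [Set.mem_singleton_iff] at hx
    subst hx
    refine ⟨?_, x, Algebra.subset_adjoin rfl, ?_⟩
    · rw [hθ]; exact (Algebra.adjoin ℤ {x}).neg_mem (Algebra.subset_adjoin rfl)
    · rw [hθ]; ring
  | algebraMap r =>
    refine ⟨?_, 0, Subalgebra.zero_mem _, ?_⟩
    · simp only [algebraMap_int_eq, eq_intCast, map_intCast]
      exact (Algebra.adjoin ℤ {θ}).intCast_mem r
    · simp
  | add x y hx hy ihx ihy =>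
    obtain ⟨hx1, v, hv, hv'⟩ := ihx
    obtain ⟨hy1, u, hu, hu'⟩ := ihy
    refine ⟨by rw [map_add]; exact Subalgebra.add_mem _ hx1 hy1, v + u,
      Subalgebra.add_mem _ hv hu, ?_⟩
    rw [map_add, mul_add, ← hv', ← hu']
    ring
  | mul x y hx hy ihx ihy =>
    obtain ⟨hx1, v, hv, hv'⟩ := ihx
    obtain ⟨hy1, u, hu, hu'⟩ := ihy
    refine ⟨by rw [map_mul]; exact Subalgebra.mul_mem _ hx1 hy1,
      v * y + (starRingEnd ℂ) x * u,
      Subalgebra.add_mem _ (Subalgebra.mul_mem _ hv hy) (Subalgebra.mul_mem _ hx1 hu), ?_⟩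
    have : x * y - (starRingEnd ℂ) (x * y) =
        (x - (starRingEnd ℂ) x) * y + (starRingEnd ℂ) x * (y - (starRingEnd ℂ) y) := by
      rw [map_mul]; ring
    rw [this, hv', hu']
    ring

/-- `1 - η` divides `p` in the ring of algebraic integers if `η ≠ 1`, `η ^ p = 1`. -/
theorem dvd_prime (p : ℕ) (η : ℂ) (h1 : η ≠ 1) (hp : η ^ p = 1) (hp0 : p ≠ 0) :
    ∃ u : ℂ, IsIntegral ℤ u ∧ (p : ℂ) = (1 - η) * u := by
  have hint : IsIntegral ℤ η := IsIntegral.of_pow (Nat.pos_of_ne_zero hp0) (by rw [hp]; exact isIntegral_one)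
  have hs : ∑ k ∈ Finset.range p, η ^ k = 0 := by
    have := geom_sum_mul η p
    rw [hp, sub_self] at this
    rcases mul_eq_zero.1 this with h | h
    · exact h
    · exact absurd (sub_eq_zero.1 h) h1
  refine ⟨∑ k ∈ Finset.range p, ∑ j ∈ Finset.range k, η ^ j, ?_, ?_⟩
  · exact IsIntegral.sum _ fun k _ => IsIntegral.sum _ fun j _ => hint.pow j
  · rw [Finset.mul_sum]
    have h2 : ∀ k ∈ Finset.range p, (1 - η) * ∑ j ∈ Finset.range k, η ^ j = 1 - η ^ k :=
      fun k _ => mul_neg_geom_sum η k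
    rw [Finset.sum_congr rfl h2, Finset.sum_sub_distrib, hs]
    simp

/-- If an odd prime divides `n`, `n` even, then `F_n` has an irreducible factor which is not
monogenic. -/
theorem not_monogenic (n p : ℕ) (hn : Even n) (hp : p.Prime) (hodd : Odd p) (hpn : p ∣ n) :
    ∃ f : ℤ[X], f.Monic ∧ Irreducible (f.map (Int.castRingHom ℚ)) ∧ f ∣ fibPoly n ∧
      ¬ IsMonogenic f := by
  have hp0 : p ≠ 0 := hp.ne_zero
  set ζ : ℂ := Complex.exp (2 * Real.pi * Complex.I / p) with hζ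
  have hprim : IsPrimitiveRoot ζ p := Complex.isPrimitiveRoot_exp p hp0
  have hζ0 : ζ ≠ 0 := hprim.ne_zero hp0
  have hζp : ζ ^ p = 1 := hprim.pow_eq_one
  have hζn : ζ ^ n = 1 := by
    obtain ⟨m, rfl⟩ := hpn
    rw [pow_mul, hζp, one_pow]
  have hζint : IsIntegral ℤ ζ := hprim.isIntegral hp.pos
  have hζinv : IsIntegral ℤ ζ⁻¹ := hprim.inv.isIntegral hp.pos
  have hconj : (starRingEnd ℂ) ζ = ζ⁻¹ := by
    have h1 : Complex.normSq ζ = 1 := by
      rw [Complex.normSq_eq_norm_sq, hprim.norm'_eq_one hp0]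
      norm_num
    rw [Complex.inv_def, h1, inv_one, Complex.ofReal_one, mul_one]
  set θ : ℂ := ζ - ζ⁻¹ with hθ
  have hθconj : (starRingEnd ℂ) θ = -θ := by
    rw [hθ, map_sub, map_inv₀, hconj, inv_inv]; ring
  have hθint : IsIntegral ℤ θ := hζint.sub hζinv
  have hsq : ζ ^ 2 ≠ -1 := by
    intro h
    have h1 : (ζ ^ 2) ^ p = 1 := by rw [← pow_mul, mul_comm, pow_mul, hζp, one_pow]
    rw [h, hodd.neg_one_pow] at h1
    norm_num at h1
  have hsum : ζ + ζ⁻¹ ≠ 0 := by
    intro h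
    apply hsq
    have : (ζ + ζ⁻¹) * ζ = 0 := by rw [h, zero_mul]
    rw [add_mul, inv_mul_cancel₀ hζ0] at this
    linear_combination this
  have hroot : aeval θ (fibPoly n) = 0 := by
    have h := binet ζ hζ0 n
    have h2 : (-ζ⁻¹) ^ n = 1 := by
      rw [hn.neg_pow, inv_pow, hζn, inv_one]
    rw [hζn, h2, sub_self] at h
    exact (mul_eq_zero.1 h).resolve_right hsum
  refine ⟨minpoly ℤ θ, minpoly.monic hθint, ?_, ?_, ?_⟩
  · have h := minpoly.isIntegrallyClosed_eq_field_fractions' ℚ hθint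
    have h2 : (minpoly ℤ θ).map (Int.castRingHom ℚ) = minpoly ℚ θ := by
      rw [h]; rfl
    rw [h2]
    exact minpoly.irreducible (hθint.tower_top)
  · exact minpoly.isIntegrallyClosed_dvd hθint hroot
  · intro hmono
    have hθA : θ ∈ Algebra.adjoin ℤ {θ} := Algebra.subset_adjoin rfl
    -- `ζ + ζ⁻¹` belongs to `ℤ[θ]`
    have hs : ζ + ζ⁻¹ ∈ Algebra.adjoin ℤ {θ} := by
      have h1 : ζ ^ 2 + (ζ ^ 2)⁻¹ ∈ Algebra.adjoin ℤ {θ} := by
        have : ζ ^ 2 + (ζ ^ 2)⁻¹ = θ * θ + (1 + 1) := by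
          rw [hθ]; field_simp; ring
        rw [this]
        exact Subalgebra.add_mem _ (Subalgebra.mul_mem _ hθA hθA)
          (Subalgebra.add_mem _ (Subalgebra.one_mem _) (Subalgebra.one_mem _))
      obtain ⟨k, hk⟩ := hodd
      have h2 := pow_add_inv_pow_mem _ (ζ ^ 2) (pow_ne_zero 2 hζ0) h1 (k + 1)
      have h3 : (ζ ^ 2) ^ (k + 1) = ζ := by
        rw [← pow_mul, show 2 * (k + 1) = p + 1 by omega, pow_succ, hζp, one_mul]
      have h4 : ((ζ ^ 2)⁻¹) ^ (k + 1) = ζ⁻¹ := by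
        rw [inv_pow, h3]
      rwa [h3, h4] at h2
    -- hence `ζ` belongs to `ℚ(θ)`
    have hle : ∀ w ∈ Algebra.adjoin ℤ {θ}, w ∈ IntermediateField.adjoin ℚ {θ} := by
      intro w hw
      induction hw using Algebra.adjoin_induction with
      | mem x hx => exact IntermediateField.subset_adjoin _ _ hx
      | algebraMap r =>
        simp only [algebraMap_int_eq, eq_intCast]
        exact intCast_mem _ r
      | add x y _ _ ihx ihy => exact add_mem ihx ihy
      | mul x y _ _ ihx ihy => exact mul_mem ihx ihy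
    have hζmem : ζ ∈ IntermediateField.adjoin ℚ {θ} := by
      have : ζ = (θ + (ζ + ζ⁻¹)) / 2 := by rw [hθ]; ring
      rw [this]
      refine div_mem (add_mem (hle _ hθA) (hle _ hs)) ?_
      exact ofNat_mem _ 2
    have hζA := hmono θ (minpoly.aeval ℤ θ) ζ hζmem hζint
    obtain ⟨-, v, hv, hv'⟩ := sub_conj θ hθconj ζ hζA
    rw [hconj] at hv'
    have hvint : IsIntegral ℤ v := by
      have : Algebra.adjoin ℤ {θ} ≤ integralClosure ℤ ℂ :=
        Algebra.adjoin_le (Set.singleton_subset_iff.2 hθint)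
      exact this hv
    have hζ21 : ζ ^ 2 ≠ 1 := by
      intro h
      have := (hprim.pow_eq_one_iff_dvd 2).1 h
      have h2 := Nat.le_of_dvd (by norm_num) this
      have h3 := hp.two_le
      have : p = 2 := by omega
      rw [this] at hodd
      exact absurd hodd (by decide)
    obtain ⟨u, hu, hpu⟩ := dvd_prime p (ζ ^ 2) hζ21
      (by rw [← pow_mul, mul_comm, pow_mul, hζp, one_pow]) hp0
    have hfin : (p : ℂ) / 2 = -(ζ * v * u) := by
      have h1 : (1 : ℂ) - ζ ^ 2 = -ζ * (ζ - ζ⁻¹) := by field_simp; ring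
      rw [hpu, h1, hv']
      ring
    have hhalf : IsIntegral ℤ ((p : ℂ) / 2) := by
      rw [hfin]
      exact ((hζint.mul hvint).mul hu).neg
    have hhalf2 : IsIntegral ℤ ((p : ℚ) / 2) := by
      have h1 : (p : ℂ) / 2 = algebraMap ℚ ℂ ((p : ℚ) / 2) := by simp
      rw [h1] at hhalf
      exact (isIntegral_algebraMap_iff (algebraMap ℚ ℂ).injective).1 hhalf
    obtain ⟨m, hm⟩ := IsIntegrallyClosed.isIntegral_iff.1 hhalf2
    simp only [algebraMap_int_eq, eq_intCast] at hm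
    have hm2 : (p : ℤ) = 2 * m := by
      have : (p : ℚ) = 2 * m := by rw [hm]; ring
      exact_mod_cast this
    have h3 : (p : ℤ) % 2 = 1 := by
      have := Nat.odd_iff.1 hodd
      omega
    omega

/-- Elements of `ℤ[η]` are of the form `a + b η` with `a, b ∈ ℤ[η - η⁻¹]`. -/
theorem mem_adjoin_eta (η : ℂ) (hη : η ≠ 0) (w : ℂ) (hw : w ∈ Algebra.adjoin ℤ {η}) :
    ∃ a ∈ Algebra.adjoin ℤ {η - η⁻¹}, ∃ b ∈ Algebra.adjoin ℤ {η - η⁻¹}, w = a + b * η := by
  have hθ : η - η⁻¹ ∈ Algebra.adjoin ℤ {η - η⁻¹} := Algebra.subset_adjoin rfl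
  have hsq : η * η = 1 + (η - η⁻¹) * η := by field_simp; ring
  induction hw using Algebra.adjoin_induction with
  | mem x hx =>
    rw [Set.mem_singleton_iff] at hx
    subst hx
    exact ⟨0, Subalgebra.zero_mem _, 1, Subalgebra.one_mem _, by ring⟩
  | algebraMap r =>
    exact ⟨algebraMap ℤ ℂ r, Subalgebra.algebraMap_mem _ r, 0, Subalgebra.zero_mem _, by ring⟩
  | add x y _ _ ihx ihy =>
    obtain ⟨a, ha, b, hb, rfl⟩ := ihx
    obtain ⟨c, hc, d, hd, rfl⟩ := ihy
    exact ⟨a + c, Subalgebra.add_mem _ ha hc, b + d, Subalgebra.add_mem _ hb hd, by ring⟩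
  | mul x y _ _ ihx ihy =>
    obtain ⟨a, ha, b, hb, rfl⟩ := ihx
    obtain ⟨c, hc, d, hd, rfl⟩ := ihy
    refine ⟨a * c + b * d, Subalgebra.add_mem _ (Subalgebra.mul_mem _ ha hc)
      (Subalgebra.mul_mem _ hb hd), a * d + b * c + b * d * (η - η⁻¹), ?_, ?_⟩
    · exact Subalgebra.add_mem _ (Subalgebra.add_mem _ (Subalgebra.mul_mem _ ha hd)
        (Subalgebra.mul_mem _ hb hc)) (Subalgebra.mul_mem _ (Subalgebra.mul_mem _ hb hd) hθ)
    · linear_combination (b * d) * hsq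

/-- If `η` has order divisible by `4` and larger than `4`, then `ℤ[η - η⁻¹]` contains all integral
elements of `ℚ(η - η⁻¹)`. -/
theorem monogenic_of_four_dvd (η : ℂ) (m : ℕ) (hη : IsPrimitiveRoot η m) (h4 : 4 ∣ m)
    (hm : 4 < m) (z : ℂ) (hz : z ∈ IntermediateField.adjoin ℚ {η - η⁻¹}) (hzi : IsIntegral ℤ z) :
    z ∈ Algebra.adjoin ℤ {η - η⁻¹} := by
  have hm0 : m ≠ 0 := by omega
  have : NeZero m := ⟨hm0⟩
  have hη0 : η ≠ 0 := hη.ne_zero hm0
  have hηi : IsIntegral ℤ η := hη.isIntegral (by omega)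
  have hηQ : IsIntegral ℚ η := hηi.tower_top
  have hsq : η ^ 2 ≠ -1 := by
    intro h
    have h1 : η ^ 4 = 1 := by
      rw [show η ^ 4 = (η ^ 2) ^ 2 by ring, h]; norm_num
    have := hη.dvd_of_pow_eq_one _ h1
    have := Nat.le_of_dvd (by norm_num) this
    omega
  have hsum : η + η⁻¹ ≠ 0 := by
    intro h
    apply hsq
    have : (η + η⁻¹) * η = 0 := by rw [h, zero_mul]
    rw [add_mul, inv_mul_cancel₀ hη0] at this
    linear_combination this
  -- the conjugate `-η⁻¹`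
  obtain ⟨k, hk⟩ := h4
  have hhalf : η ^ (2 * k) = -1 := by
    have h1 : (η ^ (2 * k)) ^ 2 = 1 := by
      rw [← pow_mul, show 2 * k * 2 = m by omega, hη.pow_eq_one]
    rcases sq_eq_one_iff.1 h1 with h | h
    · exfalso
      have := hη.dvd_of_pow_eq_one _ h
      have := Nat.le_of_dvd (by omega) this
      omega
    · exact h
  have hcop : Nat.Coprime (2 * k - 1) m := by
    have h1 : Nat.gcd (2 * k - 1) m ∣ 2 := by
      have h2 := Nat.gcd_dvd_left (2 * k - 1) m
      have h3 := Nat.gcd_dvd_right (2 * k - 1) m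
      have h4 : m = 2 * (2 * k - 1) + 2 := by omega
      have h5 : Nat.gcd (2 * k - 1) m ∣ 2 * (2 * k - 1) + 2 := by rw [← h4]; exact h3
      exact (Nat.dvd_add_right (Dvd.dvd.mul_left h2 2)).1 h5
    have h2 : Odd (2 * k - 1) := ⟨k - 1, by omega⟩
    have h3 := Nat.gcd_dvd_left (2 * k - 1) m
    rcases (Nat.dvd_prime Nat.prime_two).1 h1 with h | h
    · exact h
    · rw [h] at h3
      exact absurd (even_iff_two_dvd.2 h3) (Nat.not_even_iff_odd.2 h2)
  have hconj : η ^ (2 * k - 1) = -η⁻¹ := by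
    have h1 : η ^ (2 * k - 1) * η = -1 := by
      rw [← pow_succ, show 2 * k - 1 + 1 = 2 * k by omega, hhalf]
    field_simp
    exact h1
  have hroot : aeval (-η⁻¹) (minpoly ℚ η) = 0 := by
    have h1 := minpoly.isIntegrallyClosed_eq_field_fractions' ℚ hηi
    rw [h1, aeval_map_algebraMap, hη.minpoly_eq_pow_coprime hcop, hconj]
    exact minpoly.aeval ℤ _
  set K := IntermediateField.adjoin ℚ {η} with hK
  let g : K := IntermediateField.AdjoinSimple.gen ℚ η
  have hg : (g : ℂ) = η := rfl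
  obtain ⟨σ, hσ⟩ : ∃ σ : K →ₐ[ℚ] ℂ, σ g = -η⁻¹ := by
    have hmem : -η⁻¹ ∈ (minpoly ℚ η).aroots ℂ :=
      (mem_aroots.2 ⟨minpoly.ne_zero hηQ, hroot⟩)
    exact ⟨(IntermediateField.algHomAdjoinIntegralEquiv ℚ hηQ).symm ⟨_, hmem⟩,
      IntermediateField.algHomAdjoinIntegralEquiv_symm_apply_gen ℚ hηQ ⟨_, hmem⟩⟩
  set θ := η - η⁻¹ with hθ
  let t : K := g - g⁻¹
  have ht : (t : ℂ) = θ := rfl
  have hσt : σ t = θ := by
    show σ (g - g⁻¹) = θ
    rw [map_sub, map_inv₀, hσ, hθ]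
    field_simp
    ring
  have hθi : IsIntegral ℤ θ := hηi.sub (hη.inv.isIntegral (by omega))
  have hθQ : IsIntegral ℚ θ := hθi.tower_top
  -- `z` is a polynomial in `θ`
  have hz2 : z ∈ Algebra.adjoin ℚ {θ} := by
    rw [← IntermediateField.adjoin_simple_toSubalgebra_of_isAlgebraic hθQ.isAlgebraic]
    exact hz
  rw [Algebra.adjoin_singleton_eq_range_aeval] at hz2
  obtain ⟨P, hP⟩ := hz2
  replace hP : aeval θ P = z := hP
  -- `z` belongs to `ℤ[η]`
  have hcyc : IsCyclotomicExtension {m} ℚ K := by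
    change IsCyclotomicExtension {m} ℚ K.toSubalgebra
    rw [hK, IntermediateField.adjoin_simple_toSubalgebra_of_isAlgebraic hηQ.isAlgebraic]
    exact hη.adjoin_isCyclotomicExtension ℚ
  have hgprim : IsPrimitiveRoot g m := by
    rw [← IsPrimitiveRoot.coe_submonoidClass_iff]
    exact hη
  have hic := IsCyclotomicExtension.Rat.isIntegralClosure_adjoin_singleton hgprim
  have hzt : ((aeval t P : K) : ℂ) = z := by
    have : ((aeval t P : K) : ℂ) = aeval (t : ℂ) P := by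
      have := (aeval_algHom_apply K.val t P)
      exact this.symm
    rw [this, ht, hP]
  have hzint : IsIntegral ℤ (aeval t P : K) := by
    have : IsIntegral ℤ (K.val (aeval t P)) := by
      show IsIntegral ℤ ((aeval t P : K) : ℂ)
      rw [hzt]; exact hzi
    exact (isIntegral_algHom_iff (K.val.restrictScalars ℤ) K.val.injective).1 this
  obtain ⟨y, hy⟩ := hic.isIntegral_iff.1 hzint
  have hyη : ∀ w : K, w ∈ Algebra.adjoin ℤ {g} → (w : ℂ) ∈ Algebra.adjoin ℤ {η} := by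
    intro w hw
    induction hw using Algebra.adjoin_induction with
    | mem x hx =>
      rw [Set.mem_singleton_iff] at hx
      subst hx
      exact Algebra.subset_adjoin rfl
    | algebraMap r =>
      have : ((algebraMap ℤ K r : K) : ℂ) = algebraMap ℤ ℂ r := by simp
      rw [this]
      exact Subalgebra.algebraMap_mem _ r
    | add x y _ _ ihx ihy => exact Subalgebra.add_mem _ ihx ihy
    | mul x y _ _ ihx ihy => exact Subalgebra.mul_mem _ ihx ihy
  have hzη : z ∈ Algebra.adjoin ℤ {η} := by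
    have h1 := hyη y.1 y.2
    have h2 : ((y : K) : ℂ) = z := by
      rw [← hzt, ← hy]; rfl
    rwa [h2] at h1
  obtain ⟨a, ha, b, hb, hab⟩ := mem_adjoin_eta η hη0 z hzη
  rw [Algebra.adjoin_singleton_eq_range_aeval] at ha hb
  obtain ⟨A, hA⟩ := ha
  obtain ⟨B, hB⟩ := hb
  replace hA : aeval θ A = a := hA
  replace hB : aeval θ B = b := hB
  -- apply `σ`
  have hval : ∀ Q : ℤ[X], ((aeval t Q : K) : ℂ) = aeval θ Q := by
    intro Q
    have := (aeval_algHom_apply (K.val.restrictScalars ℤ) t Q)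
    exact this.symm
  have hid : aeval t P = aeval t A + aeval t B * g := by
    apply Subtype.ext
    show ((aeval t P : K) : ℂ) = ((aeval t A : K) : ℂ) + ((aeval t B : K) : ℂ) * (g : ℂ)
    rw [hzt, hval, hval, hA, hB, hg]
    exact hab
  have h1 := congrArg σ hid
  rw [map_add, map_mul, hσ] at h1
  have h2 : σ (aeval t P) = z := by
    rw [← aeval_algHom_apply σ t P, hσt, hP]
  have h3 : ∀ Q : ℤ[X], σ (aeval t Q) = aeval θ Q := by
    intro Q
    have := (aeval_algHom_apply (σ.restrictScalars ℤ) t Q)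
    have h4 : (σ.restrictScalars ℤ) t = θ := hσt
    rw [h4] at this
    exact this.symm
  rw [h2, h3, h3, hA, hB] at h1
  have h4 : b * (η + η⁻¹) = 0 := by
    have : a + b * η = a + b * -η⁻¹ := by rw [← hab, ← h1]
    linear_combination this
  have hb0 : b = 0 := (mul_eq_zero.1 h4).resolve_right hsum
  rw [hab, hb0, zero_mul, add_zero, Algebra.adjoin_singleton_eq_range_aeval]
  exact ⟨A, hA⟩

/-- The case `θ = 0`. -/
theorem mem_adjoin_zero (z : ℂ) (hz : z ∈ IntermediateField.adjoin ℚ {(0 : ℂ)})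
    (hzi : IsIntegral ℤ z) : z ∈ Algebra.adjoin ℤ {(0 : ℂ)} := by
  rw [IntermediateField.adjoin_zero, IntermediateField.mem_bot] at hz
  obtain ⟨q, rfl⟩ := hz
  have h1 : IsIntegral ℤ q := (isIntegral_algebraMap_iff (algebraMap ℚ ℂ).injective).1 hzi
  obtain ⟨m, hm⟩ := IsIntegrallyClosed.isIntegral_iff.1 h1
  rw [← hm]
  simp only [algebraMap_int_eq, eq_intCast, map_intCast]
  exact (Algebra.adjoin ℤ {(0 : ℂ)}).intCast_mem m

/-- If `n = 2 ^ k` then all irreducible factors of `F_n` are monogenic. -/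
theorem monogenic_two_pow (k : ℕ) (hk : 1 ≤ k) (f : ℤ[X]) (hf : f ∣ fibPoly (2 ^ k)) :
    IsMonogenic f := by
  intro θ hθ z hz hzi
  have hroot : aeval θ (fibPoly (2 ^ k)) = 0 := by
    obtain ⟨g, hg⟩ := hf
    rw [hg, map_mul, hθ, zero_mul]
  obtain ⟨s, hs⟩ : ∃ s : ℂ, s ^ 2 = θ ^ 2 + 4 :=
    IsAlgClosed.exists_pow_nat_eq _ (by norm_num)
  obtain ⟨η, hη0, hη⟩ : ∃ η : ℂ, η ≠ 0 ∧ η - η⁻¹ = θ := by
    have h1 : ((θ + s) / 2) ^ 2 = θ * ((θ + s) / 2) + 1 := by linear_combination hs / 4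
    have h0 : (θ + s) / 2 ≠ 0 := by
      intro h
      rw [h] at h1
      norm_num at h1
    refine ⟨(θ + s) / 2, h0, ?_⟩
    have h2 : ((θ + s) / 2)⁻¹ = (θ + s) / 2 - θ :=
      (eq_inv_of_mul_eq_one_left (by linear_combination h1)).symm
    rw [h2]; ring
  have hev : Even (2 ^ k) := (Nat.even_pow.2 ⟨even_two, by omega⟩)
  have hpow : η ^ (2 ^ (k + 1)) = 1 := by
    have h := binet η hη0 (2 ^ k)
    rw [hη, hroot, zero_mul, hev.neg_pow, inv_pow] at h
    have h1 : η ^ 2 ^ k = (η ^ 2 ^ k)⁻¹ := (sub_eq_zero.1 h.symm)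
    have h2 : η ^ 2 ^ k * η ^ 2 ^ k = 1 := by
      nth_rewrite 2 [h1]
      exact mul_inv_cancel₀ (pow_ne_zero _ hη0)
    rw [pow_succ, pow_mul, pow_two]
    exact h2
  have hprim : IsPrimitiveRoot η (orderOf η) := IsPrimitiveRoot.orderOf η
  obtain ⟨j, hj, hord⟩ := (Nat.dvd_prime_pow Nat.prime_two).1 (orderOf_dvd_of_pow_eq_one hpow)
  rw [hord] at hprim
  rcases j with _ | _ | _ | j
  · have h1 : η = 1 := by simpa using hprim.pow_eq_one
    have h2 : θ = 0 := by rw [← hη, h1]; norm_num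
    rw [h2] at hz ⊢
    exact mem_adjoin_zero z hz hzi
  · have h1 : η ^ 2 = 1 := by simpa using hprim.pow_eq_one
    have h2 : θ = 0 := by
      rw [← hη]
      rcases sq_eq_one_iff.1 h1 with h | h <;> rw [h] <;> norm_num
    rw [h2] at hz ⊢
    exact mem_adjoin_zero z hz hzi
  · exfalso
    have h1 : η ^ 2 = -1 := by
      have h2 : (η ^ 2) ^ 2 = 1 := by
        rw [← pow_mul]
        exact hprim.pow_eq_one
      rcases sq_eq_one_iff.1 h2 with h | h
      · have := hprim.dvd_of_pow_eq_one 2 h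
        norm_num at this
      · exact h
    have h2 : θ = 2 * η := by
      rw [← hη]
      have : η⁻¹ = -η :=
        (eq_inv_of_mul_eq_one_left (by linear_combination -h1)).symm
      rw [this]; ring
    have h3 := (at_two_i η h1 (2 ^ k - 1)).1
    rw [show 2 ^ k - 1 + 1 = 2 ^ k by have := Nat.one_le_two_pow (n := k); omega, ← h2, hroot] at h3
    have h4 : ((2 ^ k - 1 : ℕ) : ℂ) + 1 ≠ 0 := by
      exact_mod_cast Nat.succ_ne_zero (2 ^ k - 1)
    exact (mul_ne_zero h4 (pow_ne_zero _ hη0)) h3.symm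
  · rw [← hη] at hz ⊢
    refine monogenic_of_four_dvd η (2 ^ (j + 3)) hprim ⟨2 ^ (j + 1), by ring⟩ ?_ z hz hzi
    have := Nat.one_le_two_pow (n := j)
    rw [pow_add]
    omega

/-- **Main result.** For even `n ≥ 2`, every irreducible factor of the Fibonacci polynomial `F_n`
(that is, every monic polynomial with integer coefficients which is irreducible over `ℚ` and divides
`F_n`) is monogenic if and only if `n` is a power of two. -/
theorem result (n : ℕ) (hn : 2 ≤ n) (heven : Even n) :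
    (∀ f : ℤ[X], f.Monic → Irreducible (f.map (Int.castRingHom ℚ)) → f ∣ fibPoly n →
      IsMonogenic f) ↔ ∃ k : ℕ, n = 2 ^ k := by
  constructor
  · intro h
    rcases Nat.eq_two_pow_or_exists_odd_prime_and_dvd n with h1 | ⟨p, hp, hpn, hodd⟩
    · exact h1
    · obtain ⟨f, hf1, hf2, hf3, hf4⟩ := not_monogenic n p heven hp hodd hpn
      exact absurd (h f hf1 hf2 hf3) hf4
  · rintro ⟨k, rfl⟩ f _ _ hf
    refine monogenic_two_pow k ?_ f hf
    rcases k with _ | k
    · norm_num at hn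
    · omega

end Pool.Agent.Results.MP_b164a8_nt.EvenFibonacci
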